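import Mathlib
import Pool.Agent.W488.IX.Stm

/-!
The ideal forms are nonnegative (S_IDL of helper488's project IX).
-/

set_option autoImplicit false

namespace Pool.Agent.W293.IX.Idl

open Pool.Agent.W488.IW Pool.Agent.W488.IX

theorem bin {q d r X D : ℝ} (hq : 0 < q) (h : 0 ≤ q * d - r ^ 2) :
    0 ≤ q * X ^ 2 + 2 * r * X * D + d * D ^ 2 := by
  have h1 : 0 ≤ q * (q * X ^ 2 + 2 * r * X * D + d * D ^ 2) := by
    have e : q * (q * X ^ 2 + 2 * r * X * D + d * D ^ 2) =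
        (q * X + r * D) ^ 2 + (q * d - r ^ 2) * D ^ 2 := by ring
    rw [e]
    positivity
  exact nonneg_of_mul_nonneg_right h1 hq

theorem key2 {t c : ℝ} (ht0 : 0 ≤ t) (ht1 : t ≤ 1) (hc1 : -(1 / 9) ≤ c) (hc2 : c ≤ 1 / 6) :
    0 ≤ (4 - t) * (2 - 4 * c - t * c ^ 2) - (4 * c - 2 + t + t * c) ^ 2 := by
  nlinarith [mul_nonneg ht0 (sub_nonneg.2 ht1), mul_nonneg (sub_nonneg.2 hc1) (sub_nonneg.2 hc2),
    mul_nonneg ht0 (mul_nonneg (sub_nonneg.2 hc1) (sub_nonneg.2 hc2)),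
    mul_nonneg (sub_nonneg.2 ht1) (mul_nonneg (sub_nonneg.2 hc1) (sub_nonneg.2 hc2)),
    mul_nonneg ht0 (sub_nonneg.2 hc1), mul_nonneg ht0 (sub_nonneg.2 hc2),
    mul_nonneg (sub_nonneg.2 ht1) (sub_nonneg.2 hc1),
    mul_nonneg (sub_nonneg.2 ht1) (sub_nonneg.2 hc2)]

theorem key1 {t c : ℝ} (ht0 : 0 ≤ t) (hc1 : -(1 / 9) ≤ c) (hc2 : c ≤ 1 / 6) :
    0 ≤ (4 * (1 + t) - t * (1 - 2 * c) ^ 2) *
      ((1 + t) * (2 - 4 * c) * (1 - t) + (1 + t) ^ 2 * ((6 * t - 1) / 5) -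
        t * (1 - t) ^ 2 * c ^ 2) -
      ((1 + t) * (4 * c - 2 + t) - t * (1 - t) * c * (1 - 2 * c)) ^ 2 := by
  have hm := mul_nonneg (sub_nonneg.2 hc1) (sub_nonneg.2 hc2)
  have h0 : 0 ≤ 16 / 5 - 16 * c ^ 2 := by nlinarith
  have h1 : 0 ≤ 23 / 5 + 76 / 5 * c - 216 / 5 * c ^ 2 := by nlinarith
  have h2 : 0 ≤ 31 / 5 + 106 / 5 * c - 96 / 5 * c ^ 2 := by nlinarith
  have h3 : 0 ≤ 37 / 5 + 44 / 5 * c + 16 / 5 * c ^ 2 := by nlinarith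
  have h4 : 0 ≤ 13 / 5 + 14 / 5 * c - 24 / 5 * c ^ 2 := by nlinarith
  have e : (4 * (1 + t) - t * (1 - 2 * c) ^ 2) *
      ((1 + t) * (2 - 4 * c) * (1 - t) + (1 + t) ^ 2 * ((6 * t - 1) / 5) -
        t * (1 - t) ^ 2 * c ^ 2) -
      ((1 + t) * (4 * c - 2 + t) - t * (1 - t) * c * (1 - 2 * c)) ^ 2 =
      (16 / 5 - 16 * c ^ 2) + t * (23 / 5 + 76 / 5 * c - 216 / 5 * c ^ 2) +
        t ^ 2 * (31 / 5 + 106 / 5 * c - 96 / 5 * c ^ 2) +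
        t ^ 3 * (37 / 5 + 44 / 5 * c + 16 / 5 * c ^ 2) +
        t ^ 4 * (13 / 5 + 14 / 5 * c - 24 / 5 * c ^ 2) := by ring
  rw [e]
  positivity

theorem form2 {t K1 K2 O2 H d : ℝ} (ht0 : 0 < t) (ht1 : t ≤ 1) (hK2 : 0 ≤ K2)
    (hO2 : 0 ≤ O2) (hH : 0 ≤ H) (h1 : t * H ≤ (1 - t) * K1)
    (h3 : -(H / 9) ≤ d) (h4 : d ≤ H / 6) (P Q R : ℝ) :
    0 ≤ (1 - t) * K1 * (P - Q) ^ 2 + (1 - t) * K2 * (Q - R) ^ 2 + 2 * (1 + t) * O2 * (Q + R) ^ 2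
    + 2 * H * (Q ^ 2 + R ^ 2 + t * Q * (P + R))
    + d * ((4 + 2 * t) * Q ^ 2 - 4 * R ^ 2 - 2 * t * P * Q - 2 * t * P * R
      + 2 * t * Q * R) := by
  have a1 : 0 ≤ (1 - t) * K2 * (Q - R) ^ 2 :=
    mul_nonneg (mul_nonneg (by linarith) hK2) (sq_nonneg _)
  have a2 : 0 ≤ 2 * (1 + t) * O2 * (Q + R) ^ 2 := by positivity
  have a3 : t * H * (P - Q) ^ 2 ≤ (1 - t) * K1 * (P - Q) ^ 2 :=
    mul_le_mul_of_nonneg_right h1 (sq_nonneg _)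
  suffices hs : 0 ≤ t * H * (P - Q) ^ 2 + 2 * H * (Q ^ 2 + R ^ 2 + t * Q * (P + R))
    + d * ((4 + 2 * t) * Q ^ 2 - 4 * R ^ 2 - 2 * t * P * Q - 2 * t * P * R
      + 2 * t * Q * R) by linarith
  rcases hH.eq_or_lt with h0 | h0
  · have hd : d = 0 := by rw [← h0] at h3 h4; linarith
    rw [← h0, hd]
    simp
  · set c : ℝ := d / H with hc
    have hd : d = c * H := by rw [hc]; field_simp
    have hc1 : -(1 / 9) ≤ c := by
      rw [hc, le_div_iff₀ h0]; linarith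
    have hc2 : c ≤ 1 / 6 := by
      rw [hc, div_le_iff₀ h0]; linarith
    have hb := bin (q := 4 - t) (d := 2 - 4 * c - t * c ^ 2) (r := 4 * c - 2 + t + t * c)
      (X := Q) (D := Q + R) (by linarith) (key2 ht0.le ht1 hc1 hc2)
    have e : t * H * (P - Q) ^ 2 + 2 * H * (Q ^ 2 + R ^ 2 + t * Q * (P + R))
        + d * ((4 + 2 * t) * Q ^ 2 - 4 * R ^ 2 - 2 * t * P * Q - 2 * t * P * R
        + 2 * t * Q * R) = H * (t * ((P - Q) + Q - c * (Q + R)) ^ 2 +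
          ((4 - t) * Q ^ 2 + 2 * (4 * c - 2 + t + t * c) * Q * (Q + R) +
            (2 - 4 * c - t * c ^ 2) * (Q + R) ^ 2)) := by
      rw [hd]; ring
    rw [e]
    exact mul_nonneg h0.le (add_nonneg (by positivity) hb)

theorem form1 {t K1 K2 O2 H d : ℝ} (ht0 : 0 < t) (ht1 : t ≤ 1) (hK1 : 0 ≤ K1) (hK2 : 0 ≤ K2)
    (hO2 : 0 ≤ O2) (hH : 0 ≤ H) (h1 : t * H ≤ (1 - t) * K1) (h2 : K1 - K2 ≤ H / 5)
    (h3 : -(H / 9) ≤ d) (h4 : d ≤ H / 6) (P Q R : ℝ) :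
    0 ≤ (1 + t) * K1 * (P + Q) ^ 2 + (1 + t) * K2 * (Q + R) ^ 2 + 2 * (1 - t) * O2 * (Q - R) ^ 2
    + 2 * H * (Q ^ 2 + R ^ 2 + t * Q * (P + R))
    + d * ((4 - 2 * t) * Q ^ 2 - 4 * R ^ 2 - 2 * t * P * Q + 2 * t * P * R
      + 2 * t * Q * R) := by
  have a2 : 0 ≤ 2 * (1 - t) * O2 * (Q - R) ^ 2 :=
    mul_nonneg (mul_nonneg (by linarith) hO2) (sq_nonneg _)
  rcases hH.eq_or_lt with h0 | h0
  · have hd : d = 0 := by rw [← h0] at h3 h4; linarith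
    rw [← h0, hd]
    have a1 : 0 ≤ (1 + t) * K1 * (P + Q) ^ 2 := by positivity
    have a3 : 0 ≤ (1 + t) * K2 * (Q + R) ^ 2 := by positivity
    linarith
  · have hε : 0 < 1 - t := by
      rcases ht1.eq_or_lt with h | h
      · rw [h] at h1
        linarith
      · linarith
    set c : ℝ := d / H with hc
    have hd : d = c * H := by rw [hc]; field_simp
    have hc1 : -(1 / 9) ≤ c := by
      rw [hc, le_div_iff₀ h0]; linarith
    have hc2 : c ≤ 1 / 6 := by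
      rw [hc, div_le_iff₀ h0]; linarith
    have hq : 0 < 4 * (1 + t) - t * (1 - 2 * c) ^ 2 := by
      have : (1 - 2 * c) ^ 2 ≤ 4 := by nlinarith
      nlinarith
    have hb := bin (q := 4 * (1 + t) - t * (1 - 2 * c) ^ 2)
      (d := (1 + t) * (2 - 4 * c) * (1 - t) + (1 + t) ^ 2 * ((6 * t - 1) / 5) -
        t * (1 - t) ^ 2 * c ^ 2)
      (r := (1 + t) * (4 * c - 2 + t) - t * (1 - t) * c * (1 - 2 * c))
      (X := (1 - t) * Q) (D := Q + R) hq (key1 ht0.le hc1 hc2)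
    -- lower bounds of (1-t) K1 and (1-t) K2
    have b1 : t * H * (1 + t) * (P + Q) ^ 2 ≤ (1 - t) * ((1 + t) * K1 * (P + Q) ^ 2) := by
      have := mul_le_mul_of_nonneg_right h1 (by positivity : 0 ≤ (1 + t) * (P + Q) ^ 2)
      calc _ = t * H * ((1 + t) * (P + Q) ^ 2) := by ring
        _ ≤ _ := this
        _ = _ := by ring
    have b2 : H * ((6 * t - 1) / 5) * ((1 + t) * (Q + R) ^ 2) ≤
        (1 - t) * ((1 + t) * K2 * (Q + R) ^ 2) := by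
      have h5 : H * ((6 * t - 1) / 5) ≤ (1 - t) * K2 := by nlinarith
      have := mul_le_mul_of_nonneg_right h5 (by positivity : 0 ≤ (1 + t) * (Q + R) ^ 2)
      calc _ ≤ _ := this
        _ = _ := by ring
    have e : (1 + t) * (t * H * (1 + t) * (P + Q) ^ 2 +
        H * ((6 * t - 1) / 5) * ((1 + t) * (Q + R) ^ 2) +
        (1 - t) * (2 * H * (Q ^ 2 + R ^ 2 + t * Q * (P + R))
          + d * ((4 - 2 * t) * Q ^ 2 - 4 * R ^ 2 - 2 * t * P * Q + 2 * t * P * R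
            + 2 * t * Q * R))) =
        H * (t * ((1 + t) * (P + Q) + (1 - t) * (1 - 2 * c) * Q + (1 - t) * c * (Q + R)) ^ 2 +
          ((4 * (1 + t) - t * (1 - 2 * c) ^ 2) * ((1 - t) * Q) ^ 2 +
            2 * ((1 + t) * (4 * c - 2 + t) - t * (1 - t) * c * (1 - 2 * c)) * ((1 - t) * Q) *
              (Q + R) +
            ((1 + t) * (2 - 4 * c) * (1 - t) + (1 + t) ^ 2 * ((6 * t - 1) / 5) -
              t * (1 - t) ^ 2 * c ^ 2) * (Q + R) ^ 2)) := by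
      rw [hd]; ring
    have e2 : 0 ≤ (1 + t) * (t * H * (1 + t) * (P + Q) ^ 2 +
        H * ((6 * t - 1) / 5) * ((1 + t) * (Q + R) ^ 2) +
        (1 - t) * (2 * H * (Q ^ 2 + R ^ 2 + t * Q * (P + R))
          + d * ((4 - 2 * t) * Q ^ 2 - 4 * R ^ 2 - 2 * t * P * Q + 2 * t * P * R
            + 2 * t * Q * R))) := by
      rw [e]
      exact mul_nonneg h0.le (add_nonneg (by positivity) hb)
    have e3 := nonneg_of_mul_nonneg_right e2 (by linarith : 0 < 1 + t)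
    have e4 : 0 ≤ (1 - t) * ((1 + t) * K1 * (P + Q) ^ 2 + (1 + t) * K2 * (Q + R) ^ 2
        + 2 * H * (Q ^ 2 + R ^ 2 + t * Q * (P + R))
        + d * ((4 - 2 * t) * Q ^ 2 - 4 * R ^ 2 - 2 * t * P * Q + 2 * t * P * R
          + 2 * t * Q * R)) := by
      calc (0 : ℝ) ≤ _ := e3
        _ ≤ (1 - t) * ((1 + t) * K1 * (P + Q) ^ 2) + (1 - t) * ((1 + t) * K2 * (Q + R) ^ 2) +
            (1 - t) * (2 * H * (Q ^ 2 + R ^ 2 + t * Q * (P + R))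
              + d * ((4 - 2 * t) * Q ^ 2 - 4 * R ^ 2 - 2 * t * P * Q + 2 * t * P * R
              + 2 * t * Q * R)) := by linarith
        _ = _ := by ring
    have e5 := nonneg_of_mul_nonneg_right e4 hε
    linarith

theorem main : S_IDL := by
  intro t K1 K2 O1 O2 H ht0 ht1 hK1 hK2 hO2 hH h1 h2 h3 h4 P Q R
  exact ⟨form1 ht0 ht1 hK1 hK2 hO2 hH h1 h2 h3 h4 P Q R,
    form2 ht0 ht1 hK2 hO2 hH h1 h3 h4 P Q R⟩

end Pool.Agent.W293.IX.Idl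

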